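import Pool.Agent.Y812.CG.Game

/-!
The clique achievement number and the clique avoidance number of `K_N`, for ALL `N ≥ 2 ^ 50`:
both lie between `⌊f(N) - η(N)⌋` and `f(N) + 2 + η(N)`, `η(N) = 3 log₂ log₂ N / log₂ N ≤ 0.34`.
In particular the lower inequality of Q1 holds for all these `N` (even with `f(N) - 1/2` in place
of `f(N) - 2`), and both inequalities of Q1 whenever the fractional part of `f(N)` is at most
`1 - η(N)`.
-/

set_option autoImplicit false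

namespace Pool.Agent.Results.MP_626b88_co.LargeBoards

/-- `f(N) = 2 log₂ N - 2 log₂ log₂ N + 2 log₂ e - 3`. -/
noncomputable def f (N : ℕ) : ℝ :=
  2 * Real.logb 2 N - 2 * Real.logb 2 (Real.logb 2 N) + 2 * Real.logb 2 (Real.exp 1) - 3

/-- the error term `η(N) = 3 log₂ log₂ N / log₂ N` -/
noncomputable def eta (N : ℕ) : ℝ :=
  3 * Real.logb 2 (Real.logb 2 N) / Real.logb 2 N

/-- The alternating edge game on the complete graph with `N` vertices. A play is the list of the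
claimed edges in the order of their claiming; the first player makes the moves number `0, 2, 4, ...`
and the second player the moves number `1, 3, 5, ...`; no edge is claimed twice, and a play is complete
when every (non-diagonal) edge is in the list.
`CanForce q N p r`: the player who makes the moves congruent to `p` modulo two has a strategy `σ`
(a function of the history, always choosing an unclaimed edge) such that at the end of every complete
play which follows the strategy the edges claimed at the moves congruent to `r` modulo two contain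
all edges of a complete graph on `q` vertices. -/
def CanForce (q N p r : ℕ) : Prop :=
  ∃ σ : List (Sym2 (Fin N)) → Sym2 (Fin N),
    (∀ l : List (Sym2 (Fin N)), l.Nodup → (∀ e ∈ l, ¬ e.IsDiag) →
      (∀ (i : ℕ) (h : i < l.length), i % 2 = p → l[i]'h = σ (l.take i)) →
      l.length % 2 = p → (∃ e : Sym2 (Fin N), ¬ e.IsDiag ∧ e ∉ l) →
      (¬ (σ l).IsDiag ∧ σ l ∉ l)) ∧
    (∀ l : List (Sym2 (Fin N)), l.Nodup → (∀ e ∈ l, ¬ e.IsDiag) →
      (∀ e : Sym2 (Fin N), ¬ e.IsDiag → e ∈ l) →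
      (∀ (i : ℕ) (h : i < l.length), i % 2 = p → l[i]'h = σ (l.take i)) →
      ∃ S : Finset (Fin N), S.card = q ∧
        ∀ a ∈ S, ∀ b ∈ S, a ≠ b → ∃ (i : ℕ) (h : i < l.length), i % 2 = r ∧ l[i]'h = s(a, b))

/-- The first player, as Maker, wins the clique game `(K_N, K_q)`: he can force that he himself owns
a complete graph on `q` vertices. -/
def MakerWins (q N : ℕ) : Prop := CanForce q N 0 0

/-- Forcer (the second player) wins the Avoider-Forcer game: he can force that Avoider (the first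
player) owns a complete graph on `q` vertices. -/
def ForcerWins (q N : ℕ) : Prop := CanForce q N 1 0

/-- `a` is the clique achievement number of `K_N`. -/
def IsAchievementNumber (N a : ℕ) : Prop := IsGreatest {q : ℕ | MakerWins q N} a

/-- `a` is the clique avoidance number of `K_N`. -/
def IsAvoidanceNumber (N a : ℕ) : Prop := IsGreatest {q : ℕ | ForcerWins q N} a

open Pool.Agent.Helper40.Game Pool.Agent.Helper40.K9 Pool.Agent.Helper40.SM
  Pool.Agent.Helper40.CF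

lemma f_eq (N : ℕ) : f N = Pool.Agent.Y812.CG.f N := rfl

lemma eta_eq (N : ℕ) : eta N = Pool.Agent.Y812.CG.eta N := rfl

lemma eta_bounds {N : ℕ} (hN : 2 ^ 50 ≤ N) : 0 < eta N ∧ eta N < 7 / 20 ∧ 80 < f N := by
  obtain ⟨n, l, hn, hlogN, hl, hl1, hl2, hf, he⟩ := Pool.Agent.Y812.CG.base_facts hN
  rw [← f_eq] at hf
  rw [← eta_eq] at he
  have c1 := Real.log_two_gt_d9
  have c2 := Real.log_two_lt_d9
  have hc0 : 0 < Real.log 2 := by linarith
  have hn0 : 0 < n := by linarith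
  refine ⟨?_, ?_, ?_⟩
  · have h : 0 < (Real.log 2 * n) * eta N := by nlinarith
    exact Pool.Agent.Y812.CG.pos_of_mul_pos_of_pos_left' (by positivity) h
  · have h : (Real.log 2 * n) * eta N < (Real.log 2 * n) * (7 / 20) := by nlinarith
    exact lt_of_mul_lt_mul_left h (by positivity)
  · have h : 80 * Real.log 2 < f N * Real.log 2 := by nlinarith
    exact lt_of_mul_lt_mul_right h hc0.le

lemma canForce_of {N q p : ℕ} {σ : List (Sym2 (Fin N)) → Sym2 (Fin N)}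
    (h1 : Legal (EE N) p σ)
    (h2 : ∀ h : List (Sym2 (Fin N)), h.Nodup → (∀ e ∈ h, e ∈ EE N) → (∀ e ∈ EE N, e ∈ h) →
      Cons σ p h → ∃ i ∈ fam N q, edg i ⊆ cls 0 h) : CanForce q N p 0 := by
  refine ⟨σ, ?_, ?_⟩
  · intro l hnd hE hc hl hex
    obtain ⟨e, he, hel⟩ := hex
    have h3 := h1 l hnd (fun e he => mem_EE.2 (hE e he)) hc hl ⟨e, mem_EE.2 he, hel⟩
    exact ⟨mem_EE.1 h3.1, h3.2⟩
  · intro l hnd hE hall hc
    obtain ⟨S, hS, hS2⟩ := h2 l hnd (fun e he => mem_EE.2 (hE e he))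
      (fun e he => hall e (mem_EE.1 he)) hc
    refine ⟨S, mem_fam.1 hS, ?_⟩
    intro a ha b hb hab
    exact exists_of_mem_cls (hS2 (mem_edg.2 ⟨ha, hb, hab⟩))

lemma of_canForce {N q p : ℕ} (h : CanForce q N p 0) :
    ∃ σ : List (Sym2 (Fin N)) → Sym2 (Fin N), Legal (EE N) p σ ∧
      ∀ l : List (Sym2 (Fin N)), l.Nodup → (∀ e ∈ l, e ∈ EE N) → (∀ e ∈ EE N, e ∈ l) →
        Cons σ p l → ∃ S ∈ fam N q, edg S ⊆ cls 0 l := by
  obtain ⟨σ, h1, h2⟩ := h
  refine ⟨σ, ?_, ?_⟩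
  · intro l hnd hE hc hl hex
    obtain ⟨e, he, hel⟩ := hex
    have h3 := h1 l hnd (fun e he => mem_EE.1 (hE e he)) hc hl ⟨e, mem_EE.1 he, hel⟩
    exact ⟨mem_EE.2 h3.1, h3.2⟩
  · intro l hnd hE hall hc
    obtain ⟨S, hS, hS2⟩ := h2 l hnd (fun e he => mem_EE.1 (hE e he))
      (fun e he => hall e (mem_EE.2 he)) hc
    refine ⟨S, mem_fam.2 hS, ?_⟩
    intro e he
    induction e with
    | h a b =>
        rw [mem_edg] at he
        obtain ⟨i, hi, hi2, hie⟩ := hS2 a he.1 b he.2.1 he.2.2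
        rw [← hie]
        exact mem_cls_of_getElem hnd hi hi2

lemma lt_of_force {N q p : ℕ} (hN : 2 ^ 50 ≤ N) (hp : p = 0 ∨ p = 1)
    (h : CanForce q N p 0) : (q : ℝ) < f N + 2 + eta N := by
  have hN0 : 0 < N := by omega
  have : Inhabited (Sym2 (Fin N)) := ⟨s(⟨0, hN0⟩, ⟨0, hN0⟩)⟩
  by_contra hq
  rw [not_lt, f_eq, eta_eq] at hq
  have hb := Pool.Agent.Y812.CG.blocks (N := N) (q := q) (by omega)
    (Pool.Agent.Y812.CG.upper_fact hN hq)
  obtain ⟨σ, h1, h2⟩ := of_canForce h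
  rcases hp with rfl | rfl
  · obtain ⟨τ, h3, h4⟩ := hb.1
    obtain ⟨l, hnd, hE, hall, hc, hd⟩ := exists_play h1 h3
    obtain ⟨S, hS, hS2⟩ := h2 l hnd hE hall hc
    exact h4 l hnd hE hall hd S hS hS2
  · obtain ⟨τ, h3, h4⟩ := hb.2
    obtain ⟨l, hnd, hE, hall, hc, hd⟩ := exists_play h3 h1
    obtain ⟨S, hS, hS2⟩ := h2 l hnd hE hall hd
    exact h4 l hnd hE hall hc S hS hS2

lemma force_floor {N : ℕ} (hN : 2 ^ 50 ≤ N) : ∃ q : ℕ, (q : ℤ) = ⌊f N - eta N⌋ ∧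
    CanForce q N 0 0 ∧ CanForce q N 1 0 := by
  have hN0 : 0 < N := by omega
  have : Inhabited (Sym2 (Fin N)) := ⟨s(⟨0, hN0⟩, ⟨0, hN0⟩)⟩
  have hb := eta_bounds hN
  have hf : 0 ≤ f N - eta N := by linarith [hb.1, hb.2.1, hb.2.2]
  have h1 : ((⌊f N - eta N⌋₊ : ℕ) : ℝ) ≤ f N - eta N := Nat.floor_le hf
  have h2 : f N - eta N - 1 < ((⌊f N - eta N⌋₊ : ℕ) : ℝ) := by
    have := Nat.lt_floor_add_one (f N - eta N)
    linarith
  obtain ⟨a1, a2, a3, a4, a5⟩ := Pool.Agent.Y812.CG.lower_facts hN h1 h2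
  have hw := Pool.Agent.Y812.CG.forces (N := N) (q := ⌊f N - eta N⌋₊) (by omega) (by omega)
    (Pool.Agent.Y812.CG.sum3 a1 a2 a3 a4 a5) (Pool.Agent.Y812.CG.sum2 a1 a2 a3 a4 a5)
  refine ⟨⌊f N - eta N⌋₊, Int.natCast_floor_eq_floor hf, ?_, ?_⟩
  · obtain ⟨σ, b1, b2⟩ := hw.1
    exact canForce_of b1 b2
  · obtain ⟨σ, b1, b2⟩ := hw.2
    exact canForce_of b1 b2

lemma greatest {W : ℕ → Prop} {x y : ℝ} {q : ℕ} (hq : (q : ℤ) = ⌊x - y⌋) (hW : W q)
    (hle : ∀ q, W q → (q : ℝ) < x + 2 + y) :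
    ∃ a : ℕ, IsGreatest {q : ℕ | W q} a ∧ ⌊x - y⌋ ≤ (a : ℤ) ∧ (a : ℝ) < x + 2 + y ∧
      (Int.fract x + y ≤ 1 → (a : ℤ) ≤ ⌊x + 2⌋) := by
  have hb : BddAbove {q : ℕ | W q} := by
    refine ⟨⌈x + 2 + y⌉₊, fun q hq => ?_⟩
    have h1 := hle q hq
    have h2 := Nat.le_ceil (x + 2 + y)
    exact_mod_cast (h1.le.trans h2)
  have hne : {q : ℕ | W q}.Nonempty := ⟨q, hW⟩
  have hmem := Nat.sSup_mem hne hb
  refine ⟨sSup {q : ℕ | W q}, ⟨hmem, fun q hq => le_csSup hb hq⟩, ?_, hle _ hmem, ?_⟩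
  · rw [← hq]
    exact_mod_cast le_csSup hb hW
  · intro hfr
    have h1 := hle _ hmem
    rw [Int.floor_add_ofNat]
    have h2 := Int.floor_add_fract x
    have h3 : ((sSup {q : ℕ | W q} : ℕ) : ℝ) < ((⌊x⌋ + 3 : ℤ) : ℝ) := by
      push_cast
      linarith
    have h4 : ((sSup {q : ℕ | W q} : ℕ) : ℤ) < ⌊x⌋ + 3 := by exact_mod_cast h3
    omega

lemma main {N : ℕ} (hN : 2 ^ 50 ≤ N) :
    (∃ a : ℕ, IsAchievementNumber N a ∧ ⌊f N - eta N⌋ ≤ (a : ℤ) ∧
      (a : ℝ) < f N + 2 + eta N ∧ (Int.fract (f N) + eta N ≤ 1 → (a : ℤ) ≤ ⌊f N + 2⌋)) ∧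
    (∃ a : ℕ, IsAvoidanceNumber N a ∧ ⌊f N - eta N⌋ ≤ (a : ℤ) ∧
      (a : ℝ) < f N + 2 + eta N ∧ (Int.fract (f N) + eta N ≤ 1 → (a : ℤ) ≤ ⌊f N + 2⌋)) := by
  obtain ⟨q, hq, h0, h1⟩ := force_floor hN
  exact ⟨greatest (W := fun q => MakerWins q N) hq h0 (fun q h => lt_of_force hN (Or.inl rfl) h),
    greatest (W := fun q => ForcerWins q N) hq h1 (fun q h => lt_of_force hN (Or.inr rfl) h)⟩

/-- the values of `f` and `η` at `2 ^ 100` -/
lemma at_100 : 186 ≤ f (2 ^ 100) - eta (2 ^ 100) ∧ f (2 ^ 100) + 2 + eta (2 ^ 100) < 189 := by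
  have c1 := Real.log_two_gt_d9
  have c2 := Real.log_two_lt_d9
  have hc : 0 < Real.log 2 := by linarith
  have e0 : ((2 ^ 100 : ℕ) : ℝ) = (2 : ℝ) ^ (100 : ℕ) := by norm_num
  have e1 : Real.logb 2 ((2 ^ 100 : ℕ) : ℝ) = 100 := by
    rw [e0, Real.logb_pow, Real.logb_self_eq_one (by norm_num)]
    norm_num
  have l1 : 6.6 ≤ Real.logb 2 100 := by
    rw [Real.logb, le_div_iff₀ hc]
    have h := Real.log_le_log (by positivity) (show (2 : ℝ) ^ 33 ≤ 100 ^ 5 by norm_num)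
    rw [Real.log_pow, Real.log_pow] at h
    push_cast at h
    linarith
  have l2 : Real.logb 2 100 ≤ 6.7 := by
    rw [Real.logb, div_le_iff₀ hc]
    have h := Real.log_le_log (by positivity) (show (100 : ℝ) ^ 10 ≤ 2 ^ 67 by norm_num)
    rw [Real.log_pow, Real.log_pow] at h
    push_cast at h
    linarith
  have l3 : 1.442 ≤ Real.logb 2 (Real.exp 1) := by
    rw [Real.logb, Real.log_exp, le_div_iff₀ hc]
    linarith
  have l4 : Real.logb 2 (Real.exp 1) ≤ 1.443 := by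
    rw [Real.logb, Real.log_exp, div_le_iff₀ hc]
    linarith
  unfold f eta
  rw [e1]
  constructor <;> linarith

/-- **Main theorem.** Let `η(N) = 3 log₂ log₂ N / log₂ N`. For every `N ≥ 2 ^ 50` one has
`0 < η(N) < 7/20`, and the clique achievement number and the clique avoidance number of `K_N`
exist, are at least `⌊f(N) - η(N)⌋` and less than `f(N) + 2 + η(N)`; they are at most `⌊f(N) + 2⌋`
if the fractional part of `f(N)` is at most `1 - η(N)`. In particular, for `N = 2 ^ 100` both lie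
in `{186, 187, 188}`. -/
theorem result :
    (∀ N : ℕ, 2 ^ 50 ≤ N → 0 < eta N ∧ eta N < 7 / 20 ∧
      (∃ a : ℕ, IsAchievementNumber N a ∧ ⌊f N - eta N⌋ ≤ (a : ℤ) ∧
        (a : ℝ) < f N + 2 + eta N ∧ (Int.fract (f N) + eta N ≤ 1 → (a : ℤ) ≤ ⌊f N + 2⌋)) ∧
      (∃ a : ℕ, IsAvoidanceNumber N a ∧ ⌊f N - eta N⌋ ≤ (a : ℤ) ∧
        (a : ℝ) < f N + 2 + eta N ∧ (Int.fract (f N) + eta N ≤ 1 → (a : ℤ) ≤ ⌊f N + 2⌋))) ∧
    (∃ a : ℕ, IsAchievementNumber (2 ^ 100) a ∧ 186 ≤ a ∧ a ≤ 188) ∧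
    (∃ a : ℕ, IsAvoidanceNumber (2 ^ 100) a ∧ 186 ≤ a ∧ a ≤ 188) := by
  refine ⟨fun N hN => ⟨(eta_bounds hN).1, (eta_bounds hN).2.1, main hN⟩, ?_, ?_⟩
  · obtain ⟨a, ha, h1, h2, _⟩ := (main (N := 2 ^ 100) (Nat.pow_le_pow_right (by norm_num)
      (by norm_num))).1
    have h3 : (186 : ℤ) ≤ ⌊f (2 ^ 100) - eta (2 ^ 100)⌋ := by
      rw [Int.le_floor]; exact_mod_cast at_100.1
    have h4 : (a : ℝ) < 189 := h2.trans at_100.2
    have h5 : a < 189 := by exact_mod_cast h4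
    exact ⟨a, ha, by omega, by omega⟩
  · obtain ⟨a, ha, h1, h2, _⟩ := (main (N := 2 ^ 100) (Nat.pow_le_pow_right (by norm_num)
      (by norm_num))).2
    have h3 : (186 : ℤ) ≤ ⌊f (2 ^ 100) - eta (2 ^ 100)⌋ := by
      rw [Int.le_floor]; exact_mod_cast at_100.1
    have h4 : (a : ℝ) < 189 := h2.trans at_100.2
    have h5 : a < 189 := by exact_mod_cast h4
    exact ⟨a, ha, by omega, by omega⟩

end Pool.Agent.Results.MP_626b88_co.LargeBoards
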